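import Pool.Agent.V11193.MC.Mov

set_option autoImplicit false

/-!
# Both parts of the cone conjecture for pairs on quotients of complex tori by finite groups, with one
# common fundamental domain

Let `X = V / Γ` be a projective quotient of a complex torus (an abelian variety) by any finite group,
of any dimension. The group may contain reflections, so that `K_X` need not be trivial. Let `Δ` be an
effective divisor with real coefficients on `X` such that `K_X + Δ` is numerically trivial. The theorem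
says that the effective cone is contained in the movable cone and the movable cone in the nef cone, so
that `Nef^e(X) = Mov^e(X) = Eff(X)`, that this cone is the convex hull of the rational movable classes,
and that it has a rational polyhedral fundamental domain for the action of each of the groups `Aut(X)`,
`PsAut(X)`, `Aut(X, Δ)` and `PsAut(X, Δ)`; its faces form finitely many orbits.

Part (a) of the conjecture for `Aut(X, Δ)` is the theorem of the starting files at MP_9f99c5_ag. New here: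
part (b), on the movable cone and the pseudo-automorphisms.

`latt`, `IsTorusQuotient` and `LineBundle` are defined in `Pool.Agent.W594.SYZ.Defs2`; `IsChernForm`
and `IsPositiveForm` in `Pool.Agent.W594.SYZ.TQDefs`; `IsRamification` and `IsLogPluricanonical` in
`Pool.Agent.TH735.AQ.MirDefs`; `AffGrp`, `EffDiv`, `NumTrivial` and `Normalizes` in
`Pool.Agent.Y167.Defs`; `LinGrp`, `Preserves`, `IsFundDomain`, `N1`, `integral`, `rational`, `nefCone`,
`effCone` and `IsPullback` in `Pool.Agent.Y167.Stm`; `cone` in `Pool.Agent.Y167.ConeDef`; `IsFace` in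
`Pool.Agent.Y167.StmFace`; `baseLocus`, `IsMovable`, `movCone` and `movEff` in
`Pool.Agent.V11193.MC.Mov`. In the absolute case the linear subspace `E` of `V` of the general
definitions is `V` itself, embedded by the identity map.
-/

namespace Pool.Agent.Results.MP_ad47bb_ag.TorusPairsMovable

open Pool.Agent.W594.SYZ2 Pool.Agent.TH735.AQ
open Pool.Agent.Y167 (AffGrp EffDiv NumTrivial Normalizes cone IsFace rel_abs)
open Pool.Agent.Y167.CC
open Pool.Agent.V11193.MC (movCone movEff)

/-- The space `N^1(X)`. -/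
abbrev NS {V : Type*} [NormedAddCommGroup V] [NormedSpace ℂ V] (Γ : AffGrp V) : Type _ :=
  N1 Γ (LinearMap.id : V →ₗ[ℂ] V)

/-- The cone `Nef(X)`. -/
def nef {V : Type*} [NormedAddCommGroup V] [NormedSpace ℂ V] (Γ : AffGrp V) : Set (NS Γ) :=
  nefCone Γ LinearMap.id

/-- The cone `Eff(X)`. -/
def eff {V : Type*} [NormedAddCommGroup V] [NormedSpace ℂ V] (Γ : AffGrp V) : Set (NS Γ) :=
  effCone Γ LinearMap.id

/-- The closed movable cone of `X`. -/
def mov {V : Type*} [NormedAddCommGroup V] [NormedSpace ℂ V] (Γ : AffGrp V) : Set (NS Γ) :=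
  movCone Γ LinearMap.id

/-- `𝒢` is a group of linear automorphisms of `N^1(X)` which preserves the effective movable cone
`Mov^e(X)` and a lattice commensurable with the integral classes (such as the lattice of the
classes of the Weil divisors), and which contains the pullbacks `f^*` by all automorphisms of `X` which
are induced by affine transformations `f` of `V` and map `Δ` to itself. The images of `Aut(X)`,
`PsAut(X)`, `Aut(X, Δ)` and `PsAut(X, Δ)` have these properties. -/
structure IsPsAutGroup {V : Type*} [NormedAddCommGroup V] [NormedSpace ℂ V] {Γ : AffGrp V}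
    {ι : Type*} [Fintype ι] (Δ : EffDiv Γ ι) (𝒢 : LinGrp (NS Γ)) : Prop where
  lattice : ∃ (M : AddSubgroup (NS Γ)) (k : ℕ), 0 < k ∧
    (∀ x ∈ integral Γ LinearMap.id, (k : ℝ) • x ∈ M) ∧
    (∀ x ∈ M, (k : ℝ) • x ∈ integral Γ LinearMap.id) ∧ ∀ g ∈ 𝒢, ∀ x ∈ M, g x ∈ M
  mov_eff : Preserves 𝒢 (mov Γ ∩ eff Γ)
  aff : ∀ f : V ≃ᵃ[ℂ] V, Normalizes Γ f → (∀ v, Δ.mul (f v) = Δ.mul v) →
    ∀ g, IsPullback f g → g ∈ 𝒢

/-- Let `X = V / Γ` be a projective torus quotient and `Δ` an effective divisor with real coefficients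
on `X` such that `K_X + Δ` is numerically trivial.
(1) `Eff(X)` is contained in the closed movable cone, which is contained in `Nef(X)`; so
`Nef^e(X) = Mov^e(X) = Eff(X)`, and this is the convex hull of the rational classes in `Nef(X)`.
(2) There is a finite set `S` of integral classes such that the cone spanned by `S` is contained in
`Eff(X)` and is a fundamental domain for the action of `𝒢` on `Mov^e(X)`, and hence on
`Nef^e(X)`.
(3) The faces of this cone form finitely many orbits under `𝒢`. -/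
theorem result {V : Type*} [NormedAddCommGroup V] [NormedSpace ℂ V] [FiniteDimensional ℂ V]
    (Γ : AffGrp V) (hΓ : IsTorusQuotient Γ)
    (hproj : ∃ (L : LineBundle Γ) (H : V → V → ℂ), IsChernForm L H ∧ IsPositiveForm H)
    {ι : Type*} [Fintype ι] (Δ : EffDiv Γ ι) (hΔ : NumTrivial Δ (LinearMap.id : V →ₗ[ℂ] V))
    (𝒢 : LinGrp (NS Γ)) (h𝒢 : IsPsAutGroup Δ 𝒢) :
    (eff Γ ⊆ mov Γ ∧ mov Γ ⊆ nef Γ ∧ mov Γ ∩ eff Γ = eff Γ ∧ nef Γ ∩ eff Γ = eff Γ ∧
      eff Γ = convexHull ℝ (nef Γ ∩ rational Γ LinearMap.id)) ∧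
    (∃ S : Finset (NS Γ), ↑S ⊆ integral Γ LinearMap.id ∧ cone S ⊆ eff Γ ∧
      IsFundDomain 𝒢 (mov Γ ∩ eff Γ) (cone S) ∧ IsFundDomain 𝒢 (nef Γ ∩ eff Γ) (cone S)) ∧
    ∃ 𝓕 : Set (Set (NS Γ)), 𝓕.Finite ∧ (∀ F ∈ 𝓕, IsFace F (mov Γ ∩ eff Γ)) ∧
      ∀ F, IsFace F (mov Γ ∩ eff Γ) → ∃ g ∈ 𝒢, ∃ F' ∈ 𝓕, F = g '' F' := by
  obtain ⟨L, H, hc, hp⟩ := hproj
  have R := rel_abs hΓ hc hp
  obtain ⟨M, k, hk, hM1, hM2, hM3⟩ := h𝒢.lattice
  obtain ⟨⟨h1, h2, h3⟩, ⟨S, h4, h5, h6⟩, h7⟩ := Pool.Agent.V11193.MC.main R Δ hΔ M hk hM1 hM2 𝒢 hM3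
    h𝒢.mov_eff (fun f hf _ hf3 g hg => h𝒢.aff f hf hf3 g hg)
  have e1 : mov Γ ∩ eff Γ = eff Γ := Set.inter_eq_right.2 h1
  have e2 : nef Γ ∩ eff Γ = eff Γ := Set.inter_eq_right.2 (h1.trans h2)
  refine ⟨⟨h1, h2, e1, e2, ?_⟩, ⟨S, h4, fun x hx => (h5 hx).2, h6, ?_⟩, h7⟩
  · rw [← e2]
    exact nef_plus R
  · have h8 : mov Γ ∩ eff Γ = nef Γ ∩ eff Γ := h3
    rw [← h8]
    exact h6

end Pool.Agent.Results.MP_ad47bb_ag.TorusPairsMovable
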